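import Pool.Agent.Q80.KT.Stm

/-!
# One step of the exploration
-/

open Finset MeasureTheory Filter Topology
open scoped Classical ENNReal NNReal

namespace Q247.KT.RCH

open Pool.Agent.Q80.KT

theorem t_RCH : S_RCH := by
  intro n A U x G hx hdis
  have hxU : x ∉ U := fun h => Finset.disjoint_left.1 hdis hx h
  set A' : Finset (Fin n) := (A.erase x) ∪ U.filter fun y => G.Adj x y with hA'
  set U' : Finset (Fin n) := U.filter fun y => ¬ G.Adj x y with hU'
  -- the new vertex set
  have hmem : ∀ y, y ∈ A' ∪ U' ↔ (y ∈ A ∪ U ∧ y ≠ x) := by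
    intro y
    rw [hA', hU']
    simp only [Finset.mem_union, Finset.mem_erase, Finset.mem_filter]
    constructor
    · rintro ((⟨h1, h2⟩ | ⟨h1, h2⟩) | ⟨h1, h2⟩)
      · exact ⟨Or.inl h2, h1⟩
      · exact ⟨Or.inr h1, fun h => hxU (h ▸ h1)⟩
      · exact ⟨Or.inr h1, fun h => hxU (h ▸ h1)⟩
    · rintro ⟨h1 | h1, h2⟩
      · exact Or.inl (Or.inl ⟨h2, h1⟩)
      · by_cases h : G.Adj x y
        · exact Or.inl (Or.inr ⟨h1, h⟩)
        · exact Or.inr ⟨h1, h⟩
  -- points that are reached lie in the set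
  have hin : ∀ z w, RU (↑(A' ∪ U') : Set (Fin n)) G z w → w ∈ A' ∪ U' := by
    rintro z w ⟨hz, hw⟩
    induction hw with
    | refl => exact_mod_cast hz
    | tail _ h2 _ => exact_mod_cast h2.2.2
  have hsub : ∀ y, y ∈ A' ∪ U' → y ∈ A ∪ U := fun y hy => ((hmem y).1 hy).1
  have hmono : ∀ z w, Relation.ReflTransGen
      (fun a b => G.Adj a b ∧ a ∈ (↑(A' ∪ U') : Set (Fin n)) ∧ b ∈ (↑(A' ∪ U') : Set (Fin n))) z w →
      Relation.ReflTransGen
      (fun a b => G.Adj a b ∧ a ∈ (↑(A ∪ U) : Set (Fin n)) ∧ b ∈ (↑(A ∪ U) : Set (Fin n))) z w := by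
    intro z w h
    induction h with
    | refl => exact Relation.ReflTransGen.refl
    | tail _ h2 ih =>
      exact ih.tail ⟨h2.1, Finset.mem_coe.2 (hsub _ (Finset.mem_coe.1 h2.2.1)),
        Finset.mem_coe.2 (hsub _ (Finset.mem_coe.1 h2.2.2))⟩
  have hkey : rch A U G = insert x (rch A' U' G) := by
    ext w
    simp only [rch, Finset.mem_filter, Finset.mem_univ, true_and, Finset.mem_insert]
    constructor
    · rintro ⟨y, hy, hyU, hw⟩
      induction hw with
      | refl =>
        by_cases h : y = x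
        · exact Or.inl h
        · refine Or.inr ⟨y, ?_, ?_, Relation.ReflTransGen.refl⟩
          · rw [hA']
            exact Finset.mem_union_left _ (Finset.mem_erase.2 ⟨h, hy⟩)
          · exact Finset.mem_coe.2 ((hmem y).2 ⟨Finset.mem_union_left _ hy, h⟩)
      | @tail b c _ h2 ih =>
        obtain ⟨hadj, hb, hc⟩ := h2
        have hb' : b ∈ A ∪ U := Finset.mem_coe.1 hb
        have hc' : c ∈ A ∪ U := Finset.mem_coe.1 hc
        by_cases h : c = x
        · exact Or.inl h
        · right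
          have hcm : c ∈ A' ∪ U' := (hmem c).2 ⟨hc', h⟩
          by_cases hbx : b = x
          · refine ⟨c, ?_, Finset.mem_coe.2 hcm, Relation.ReflTransGen.refl⟩
            rw [hA']
            rcases Finset.mem_union.1 hc' with h3 | h3
            · exact Finset.mem_union_left _ (Finset.mem_erase.2 ⟨h, h3⟩)
            · exact Finset.mem_union_right _ (Finset.mem_filter.2 ⟨h3, hbx ▸ hadj⟩)
          · rcases ih with h3 | ⟨z, hz, hzU, hzb⟩
            · exact absurd h3 hbx
            · exact ⟨z, hz, hzU, hzb.tail ⟨hadj,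
                Finset.mem_coe.2 ((hmem b).2 ⟨hb', hbx⟩), Finset.mem_coe.2 hcm⟩⟩
    · rintro (h | ⟨z, hz, hzU, hzw⟩)
      · rw [h]
        exact ⟨x, hx, Finset.mem_coe.2 (Finset.mem_union_left _ hx), Relation.ReflTransGen.refl⟩
      · have hzm : z ∈ A ∪ U := hsub z (Finset.mem_coe.1 hzU)
        rw [hA'] at hz
        rcases Finset.mem_union.1 hz with h1 | h1
        · exact ⟨z, (Finset.mem_erase.1 h1).2, Finset.mem_coe.2 hzm, hmono z w hzw⟩
        · refine ⟨x, hx, Finset.mem_coe.2 (Finset.mem_union_left _ hx), ?_⟩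
          refine Relation.ReflTransGen.head ⟨(Finset.mem_filter.1 h1).2,
            Finset.mem_coe.2 (Finset.mem_union_left _ hx), Finset.mem_coe.2 hzm⟩ (hmono z w hzw)
  have hnot : x ∉ rch A' U' G := by
    intro h
    simp only [rch, Finset.mem_filter, Finset.mem_univ, true_and] at h
    obtain ⟨z, _, hz⟩ := h
    exact ((hmem x).1 (hin z x hz)).2 rfl
  rw [hkey, Finset.card_insert_of_notMem hnot, add_comm]

end Q247.KT.RCH
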